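import Pool.Agent.H25.LF.Targets
import Pool.Agent.H29.DP.MUX
import Pool.Agent.H29.DP.TA2
import Pool.Agent.H17.DP.TA1

/-!
# MU1: the Möbius function has mean value zero (MP_04ff0f_nt, board lpf_modules)
-/

set_option autoImplicit false

open Finset Real ArithmeticFunction

namespace Pool.Agent.H59.LF

open Pool.Agent.H25.LF

theorem pf_MU1 : T_MU1 := by
  intro δ hδ
  have h1 := (Pool.Agent.H29.DP.MUX.mux
    (Pool.Agent.H29.DP.TA2.ta2 Pool.Agent.H17.DP.ta1)) 1 (1 : DirichletCharacter ℂ 1)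
  have hone : ∀ n : ℕ, (1 : DirichletCharacter ℂ 1) (n : ZMod 1) = 1 := by
    intro n
    have h2 : ((n : ZMod 1)) = 1 := Subsingleton.elim _ _
    rw [h2, map_one]
  rw [Metric.tendsto_atTop] at h1
  obtain ⟨N₀, hN₀⟩ := h1 (δ / 2) (by linarith)
  refine ⟨max (N₀ : ℝ) 1, fun x hx => ?_⟩
  have hx0 : (N₀ : ℝ) ≤ x := le_trans (le_max_left _ _) hx
  have hx1 : (1 : ℝ) ≤ x := le_trans (le_max_right _ _) hx
  set N := ⌊x⌋₊ with hN
  have hNx : (N : ℝ) ≤ x := Nat.floor_le (by linarith)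
  have h3 := hN₀ (N + 1) (by
    have h4 : N₀ ≤ N := Nat.le_floor hx0
    omega)
  rw [dist_zero_right, norm_div] at h3
  have hsum : (∑ n ∈ Finset.range (N + 1), ((ArithmeticFunction.moebius n : ℤ) : ℂ) *
      (1 : DirichletCharacter ℂ 1) (n : ZMod 1)) =
      ((∑ n ∈ Icc 1 N, ((moebius n : ℤ) : ℝ) : ℝ) : ℂ) := by
    have h5 : Finset.range (N + 1) = insert 0 (Icc 1 N) := by
      ext a
      simp only [Finset.mem_range, Finset.mem_insert, Finset.mem_Icc]
      omega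
    rw [h5, Finset.sum_insert (by simp)]
    push_cast
    simp [hone]
  rw [hsum, Complex.norm_real, Real.norm_eq_abs, Complex.norm_natCast] at h3
  have hpos : (0 : ℝ) < ((N + 1 : ℕ) : ℝ) := by positivity
  rw [div_lt_iff₀ hpos] at h3
  have h6 : ((N + 1 : ℕ) : ℝ) ≤ 2 * x := by
    push_cast
    linarith
  nlinarith [h3, h6, hδ]

end Pool.Agent.H59.LF
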